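import Pool.Agent.K1H53.BI.Plan5
import Pool.Agent.K1H39.BI.Gen

/-!
# Piece WB: the function which controls the quadratic variation
-/

set_option autoImplicit false

open scoped ENNReal
open Finset

namespace Pool.Agent.K1H8.BI5

open Pool.Agent.K1H53.BI
open Pool.Agent.K1H39.BI (nsq_int nsq_zero nsq_add_dir)

theorem D_shift (x z : V) (e : Fin 3 × Bool) :
    (nsq (x - z) : ℝ) + 1 ≤ 3 * ((nsq (x + dir e - z) : ℝ) + 1) := by
  have h1 : x + dir e - z = (x - z) + dir e := by abel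
  rw [h1]
  have h2 := nsq_add_dir (x - z) e
  have h3 := nsq_int (x - z)
  have h4 : (if e.2 then (x - z) e.1 else - (x - z) e.1) ^ 2 ≤ (nsq (x - z) : ℤ) := by
    rw [h3]
    obtain ⟨j, b⟩ := e
    have h0 := sq_nonneg ((x - z) 0)
    have h1 := sq_nonneg ((x - z) 1)
    have h2 := sq_nonneg ((x - z) 2)
    fin_cases j <;> cases b <;> simp only [Bool.false_eq_true, if_false, if_true, neg_sq] <;>
      first
      | (show (x - z) 0 ^ 2 ≤ _; linarith)
      | (show (x - z) 1 ^ 2 ≤ _; linarith)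
      | (show (x - z) 2 ^ 2 ≤ _; linarith)
  generalize (if e.2 then (x - z) e.1 else - (x - z) e.1) = s at h2 h4
  have h5 : (nsq (x - z) : ℤ) + 1 ≤ 3 * ((nsq (x - z + dir e) : ℤ) + 1) := by
    rw [h2]
    nlinarith [sq_nonneg (2 * s + 3)]
  exact_mod_cast h5

theorem nsq_sub_le (x z : V) : (nsq (x - z) : ℝ) ≤ 2 * nsq x + 2 * nsq z := by
  have h : (nsq (x - z) : ℤ) ≤ 2 * nsq x + 2 * nsq z := by
    rw [nsq_int, nsq_int, nsq_int]
    simp only [Pi.sub_apply]
    nlinarith [sq_nonneg (x 0 + z 0), sq_nonneg (x 1 + z 1), sq_nonneg (x 2 + z 2)]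
  exact_mod_cast h

theorem av_le {f : V → ℝ} {x : V} {c : ℝ} (h : ∀ e, f (x + dir e) ≤ c) : av f x ≤ c := by
  unfold av
  rw [div_le_iff₀ (by norm_num)]
  calc ∑ e : Fin 3 × Bool, f (x + dir e) ≤ ∑ _e : Fin 3 × Bool, c :=
        Finset.sum_le_sum fun e _ => h e
    _ = c * 6 := by
        rw [Finset.sum_const, Finset.card_univ, Fintype.card_prod, Fintype.card_fin,
          Fintype.card_bool, nsmul_eq_mul]
        norm_num
        ring

/-- the average of a potential -/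
theorem av_pot (R : ℕ) (G : V → V → ℝ) (hGr : IsGreen R G) (ρ : V → ℝ) (x : V) (hx : x ∈ BR R) :
    av (fun x' => ∑ y ∈ BR R, G x' y * ρ y) x = (∑ y ∈ BR R, G x y * ρ y) - ρ x := by
  have h1 : av (fun x' => ∑ y ∈ BR R, G x' y * ρ y) x =
      ∑ y ∈ BR R, av (fun x' => G x' y) x * ρ y := by
    unfold av
    rw [Finset.sum_comm, Finset.sum_div]
    refine Finset.sum_congr rfl fun y _ => ?_
    rw [← Finset.sum_mul]
    ring
  rw [h1]
  have h2 : ∀ y ∈ BR R, av (fun x' => G x' y) x * ρ y =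
      G x y * ρ y - (if x = y then ρ y else 0) := by
    intro y hy
    rw [hGr.eq x y (mem_BR.1 hx) (mem_BR.1 hy)]
    by_cases hxy : x = y
    · rw [if_pos hxy, if_pos hxy]; ring
    · rw [if_neg hxy, if_neg hxy]; ring
  rw [Finset.sum_congr rfl h2, Finset.sum_sub_distrib, Finset.sum_ite_eq, if_pos hx]

theorem t_WB : S_WB := by
  rintro - ⟨Cg, hCg, hG⟩ ⟨Cu, hCu, hU⟩ ⟨Cs, R1, hCs, hS⟩ C4 hC4
  obtain ⟨C1, hC1⟩ : ∃ C1, C1 = 3 * Cg ^ 2 + 9 * Cu ^ 2 := ⟨_, rfl⟩
  have hC1p : 0 < C1 := by rw [hC1]; positivity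
  obtain ⟨K, hK⟩ : ∃ K, K = 2 * C4 * C1 * Cs := ⟨_, rfl⟩
  have hKp : 0 < K := by rw [hK]; positivity
  obtain ⟨B, hB⟩ : ∃ B, B = 3 * C4 * Cs * K := ⟨_, rfl⟩
  have hBp : 0 < B := by rw [hB]; positivity
  obtain ⟨C, hC⟩ : ∃ C, C = 1 + K + C4 * C1 * Cs + B * K + 12 * B := ⟨_, rfl⟩
  have e1 : 0 < C4 * C1 * Cs := by positivity
  have e2 : 0 < B * K := by positivity
  have hCp : 0 < C := by rw [hC]; positivity
  have hC_1 : 1 ≤ C := by rw [hC]; linarith
  have hC_K : K ≤ C := by rw [hC]; linarith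
  have hC_B : 12 * B ≤ C := by rw [hC]; linarith
  have hC_s : C4 * C1 * Cs + B * K ≤ C := by rw [hC]; linarith
  refine ⟨C, max R1 1, hCp, ?_⟩
  intro R G z θ hR hGr hz hθ hsmall
  have hR1 : R1 ≤ R := le_trans (le_max_left _ _) hR
  have hR0 : 1 ≤ R := le_trans (le_max_right _ _) hR
  have rR : (1 : ℝ) ≤ R := by exact_mod_cast hR0
  have rRp : (0 : ℝ) < R := by linarith
  obtain ⟨L, hLdef⟩ : ∃ L, L = 1 + Real.log R := ⟨_, rfl⟩
  have hL : 1 ≤ L := by rw [hLdef]; linarith [Real.log_nonneg rR]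
  have hLp : 0 < L := by linarith
  obtain ⟨H, hHdef⟩ : ∃ H, H = (R : ℝ) + 1 - nrm z := ⟨_, rfl⟩
  have hnz0 : 0 ≤ nrm z := Real.sqrt_nonneg _
  have hnz1 : nrm z ≤ R := by
    unfold nrm
    rw [Real.sqrt_le_left rRp.le]
    exact_mod_cast hz
  have hH1 : 1 ≤ H := by rw [hHdef]; linarith
  have hHp : 0 < H := by linarith
  have hH2 : H ≤ 2 * R := by rw [hHdef]; linarith
  obtain ⟨hs1, hs2, hs3⟩ := hS R G z hR1 hGr hz
  simp only [← hLdef, ← hHdef] at hs1 hs2 hs3 hsmall ⊢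
  obtain ⟨D, hD⟩ : ∃ D : V → ℝ, D = fun y => (nsq (y - z) : ℝ) + 1 := ⟨_, rfl⟩
  have hDe : ∀ y, (nsq (y - z) : ℝ) + 1 = D y := fun y => by rw [hD]
  simp only [hDe] at hs1 hs2 hs3
  have hD1 : ∀ y, 1 ≤ D y := by
    intro y
    rw [← hDe]
    have : (0 : ℝ) ≤ nsq (y - z) := Nat.cast_nonneg _
    linarith
  have hDp : ∀ y, 0 < D y := fun y => by linarith [hD1 y]
  have hDsh : ∀ x e, D x ≤ 3 * D (x + dir e) := fun x e => by
    rw [← hDe, ← hDe]; exact D_shift x z e
  -- the small parameter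
  have hq : 12 * B * (θ * L * R) ^ 2 ≤ 1 := by
    have q0 : 0 ≤ θ * L * R := by positivity
    have q1 : C * (θ * L * R) ≤ 1 := by
      have : C * (θ * L * R) = C * θ * L * R := by ring
      rw [this]; exact hsmall
    have q2 : θ * L * R ≤ 1 := le_trans (le_mul_of_one_le_left q0 hC_1) q1
    calc 12 * B * (θ * L * R) ^ 2 = (12 * B * (θ * L * R)) * (θ * L * R) := by ring
      _ ≤ (C * (θ * L * R)) * (θ * L * R) := by
          refine mul_le_mul_of_nonneg_right (mul_le_mul_of_nonneg_right hC_B q0) q0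
      _ ≤ 1 * (θ * L * R) := mul_le_mul_of_nonneg_right q1 q0
      _ ≤ 1 := by linarith
  -- the function
  obtain ⟨ρ, hρ⟩ : ∃ ρ : V → ℝ, ρ = fun y =>
    C4 * (C1 * kap H (D y) + 3 * θ ^ 2 * K ^ 2 * L ^ 2 * min 1 (H ^ 2 / D y)) := ⟨_, rfl⟩
  have hkap0 : ∀ y, 0 ≤ kap H (D y) := by
    intro y
    unfold kap
    have := hDp y
    exact le_min (by positivity) (by positivity)
  have hmin0 : ∀ y, 0 ≤ min 1 (H ^ 2 / D y) := by
    intro y
    have := hDp y
    exact le_min (by norm_num) (by positivity)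
  have hρ0 : ∀ y, 0 ≤ ρ y := by
    intro y
    rw [hρ]
    have h1 := hkap0 y
    have h2 := hmin0 y
    positivity
  obtain ⟨w, hw⟩ : ∃ w : V → ℝ, w = fun x => ∑ y ∈ BR R, G x y * ρ y := ⟨_, rfl⟩
  have hw0 : ∀ x, 0 ≤ w x := by
    intro x
    rw [hw]
    exact Finset.sum_nonneg fun y _ => mul_nonneg (hGr.nonneg x y) (hρ0 y)
  have hwout : ∀ x, R ^ 2 < nsq x → w x = 0 := by
    intro x hx
    rw [hw]
    exact Finset.sum_eq_zero fun y _ => by rw [hGr.out x y hx, zero_mul]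
  have hsplit : ∀ x, w x = C4 * C1 * (∑ y ∈ BR R, G x y * kap H (D y)) +
      3 * C4 * θ ^ 2 * K ^ 2 * L ^ 2 * (∑ y ∈ BR R, G x y * min 1 (H ^ 2 / D y)) := by
    intro x
    rw [hw, hρ, Finset.mul_sum, Finset.mul_sum, ← Finset.sum_add_distrib]
    exact Finset.sum_congr rfl fun y _ => by ring
  have hBK : 3 * C4 * θ ^ 2 * K ^ 2 * L ^ 2 * (Cs * L * H ^ 2) =
      K * L * (B * (θ * L) ^ 2 * H ^ 2) := by
    rw [hB]; ring
  have hsec : B * (θ * L) ^ 2 * H ^ 2 ≤ H / (6 * R) := by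
    rw [le_div_iff₀ (by positivity)]
    have h1 : B * (θ * L) ^ 2 * H ^ 2 * (6 * R) = (6 * B * (θ * L) ^ 2 * R * H) * H := by ring
    rw [h1]
    have h2 : 6 * B * (θ * L) ^ 2 * R * H ≤ 1 := by
      calc 6 * B * (θ * L) ^ 2 * R * H ≤ 6 * B * (θ * L) ^ 2 * R * (2 * R) :=
            mul_le_mul_of_nonneg_left hH2 (by positivity)
        _ = 12 * B * (θ * L * R) ^ 2 := by ring
        _ ≤ 1 := hq
    calc (6 * B * (θ * L) ^ 2 * R * H) * H ≤ 1 * H := mul_le_mul_of_nonneg_right h2 hHp.le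
      _ = H := one_mul H
  have hm : ∀ x ∈ BR R, H / (3 * R) ≤ min 1 (H / Real.sqrt (D x)) := by
    intro x hx
    have h1 : Real.sqrt (D x) ≤ 3 * R := by
      rw [Real.sqrt_le_left (by positivity), ← hDe]
      have h2 := nsq_sub_le x z
      have h3 : (nsq x : ℝ) ≤ (R : ℝ) ^ 2 := by exact_mod_cast mem_BR.1 hx
      have h4 : (nsq z : ℝ) ≤ (R : ℝ) ^ 2 := by exact_mod_cast hz
      have h5 : (1 : ℝ) ≤ (R : ℝ) ^ 2 := one_le_pow₀ rR
      have h6 : (3 * (R : ℝ)) ^ 2 = 9 * (R : ℝ) ^ 2 := by ring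
      rw [h6]
      linarith only [h2, h3, h4, h5]
    refine le_min ?_ ?_
    · rw [div_le_one (by positivity)]
      linarith
    · exact div_le_div_of_nonneg_left hHp.le (Real.sqrt_pos.2 (hDp x)) h1
  have hm0 : ∀ x, 0 ≤ min 1 (H / Real.sqrt (D x)) := by
    intro x
    have := Real.sqrt_nonneg (D x)
    exact le_min (by norm_num) (by positivity)
  have hwm : ∀ x, w x ≤ K * L * min 1 (H / Real.sqrt (D x)) := by
    intro x
    by_cases hx : x ∈ BR R
    · rw [hsplit x]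
      have h1 : C4 * C1 * (∑ y ∈ BR R, G x y * kap H (D y)) ≤
          C4 * C1 * (Cs * L * min 1 (H / Real.sqrt (D x))) :=
        mul_le_mul_of_nonneg_left (hs1 x hx) (by positivity)
      have h2 : 3 * C4 * θ ^ 2 * K ^ 2 * L ^ 2 * (∑ y ∈ BR R, G x y * min 1 (H ^ 2 / D y)) ≤
          3 * C4 * θ ^ 2 * K ^ 2 * L ^ 2 * (Cs * L * H ^ 2) :=
        mul_le_mul_of_nonneg_left (hs2 x hx) (by positivity)
      have h3 : C4 * C1 * (Cs * L * min 1 (H / Real.sqrt (D x))) =
          K / 2 * L * min 1 (H / Real.sqrt (D x)) := by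
        rw [hK]; ring
      have h4 : K * L * (B * (θ * L) ^ 2 * H ^ 2) ≤
          K / 2 * L * min 1 (H / Real.sqrt (D x)) := by
        have h5 : B * (θ * L) ^ 2 * H ^ 2 ≤ 1 / 2 * min 1 (H / Real.sqrt (D x)) := by
          refine hsec.trans ?_
          have h6 : H / (6 * R) = 1 / 2 * (H / (3 * R)) := by
            field_simp
            norm_num
          rw [h6]
          exact mul_le_mul_of_nonneg_left (hm x hx) (by norm_num)
        calc K * L * (B * (θ * L) ^ 2 * H ^ 2) ≤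
              K * L * (1 / 2 * min 1 (H / Real.sqrt (D x))) :=
              mul_le_mul_of_nonneg_left h5 (by positivity)
          _ = K / 2 * L * min 1 (H / Real.sqrt (D x)) := by ring
      calc _ ≤ C4 * C1 * (Cs * L * min 1 (H / Real.sqrt (D x))) +
            3 * C4 * θ ^ 2 * K ^ 2 * L ^ 2 * (Cs * L * H ^ 2) := add_le_add h1 h2
        _ ≤ K / 2 * L * min 1 (H / Real.sqrt (D x)) +
            K / 2 * L * min 1 (H / Real.sqrt (D x)) := by
            rw [h3, hBK]; exact add_le_add le_rfl h4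
        _ = K * L * min 1 (H / Real.sqrt (D x)) := by ring
    · have hx' : R ^ 2 < nsq x := by
        by_contra hcon
        exact hx (mem_BR.2 (not_lt.1 hcon))
      rw [hwout x hx']
      exact mul_nonneg (by positivity) (hm0 x)
  refine ⟨w, hw0, ?_, hwout, ?_, ?_⟩
  · intro x
    calc w x ≤ K * L * min 1 (H / Real.sqrt (D x)) := hwm x
      _ ≤ K * L * 1 := mul_le_mul_of_nonneg_left (min_le_left _ _) (by positivity)
      _ = K * L := mul_one _
      _ ≤ C * L := mul_le_mul_of_nonneg_right hC_K hLp.le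
  · intro x hx
    have hav : av w x = w x - ρ x := by
      have := av_pot R G hGr ρ x hx
      rw [hw]
      exact this
    have h1 : av (fun y => (G y z) ^ 2) x ≤ C1 * kap H (D x) := by
      refine av_le fun e => ?_
      have hDx := hDp x
      have hDy := hDp (x + dir e)
      have hsh := hDsh x e
      have hG0 := hGr.nonneg (x + dir e) z
      have g1 : (G (x + dir e) z) ^ 2 ≤ C1 * (1 / D x) := by
        have g2 : G (x + dir e) z ≤ Cg / Real.sqrt (D (x + dir e)) := by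
          rw [← hDe]; exact hG R G hGr (x + dir e) z
        have g3 : (G (x + dir e) z) ^ 2 ≤ Cg ^ 2 / D (x + dir e) := by
          calc (G (x + dir e) z) ^ 2 ≤ (Cg / Real.sqrt (D (x + dir e))) ^ 2 :=
                pow_le_pow_left₀ hG0 g2 2
            _ = Cg ^ 2 / D (x + dir e) := by rw [div_pow, Real.sq_sqrt hDy.le]
        calc (G (x + dir e) z) ^ 2 ≤ Cg ^ 2 / D (x + dir e) := g3
          _ ≤ (3 * Cg ^ 2) / D x := by
              rw [div_le_div_iff₀ hDy hDx]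
              calc Cg ^ 2 * D x ≤ Cg ^ 2 * (3 * D (x + dir e)) :=
                    mul_le_mul_of_nonneg_left hsh (sq_nonneg _)
                _ = 3 * Cg ^ 2 * D (x + dir e) := by ring
          _ ≤ C1 / D x := by
              refine div_le_div_of_nonneg_right ?_ hDx.le
              rw [hC1]; linarith only [sq_nonneg Cu]
          _ = C1 * (1 / D x) := by ring
      have g4 : (G (x + dir e) z) ^ 2 ≤ C1 * (H ^ 2 / D x ^ 2) := by
        have g5 : G (x + dir e) z ≤ Cu * H / D (x + dir e) := by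
          rw [← hDe, hHdef]; exact hU R G z (x + dir e) hR0 hGr hz
        have g6 : Cu * H / D (x + dir e) ≤ 3 * Cu * H / D x := by
          rw [div_le_div_iff₀ hDy hDx]
          have : 0 < Cu * H := by positivity
          calc Cu * H * D x ≤ Cu * H * (3 * D (x + dir e)) :=
                mul_le_mul_of_nonneg_left hsh this.le
            _ = 3 * Cu * H * D (x + dir e) := by ring
        calc (G (x + dir e) z) ^ 2 ≤ (3 * Cu * H / D x) ^ 2 :=
              pow_le_pow_left₀ hG0 (g5.trans g6) 2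
          _ = 9 * Cu ^ 2 * (H ^ 2 / D x ^ 2) := by ring
          _ ≤ C1 * (H ^ 2 / D x ^ 2) := by
              refine mul_le_mul_of_nonneg_right ?_ (by positivity)
              rw [hC1]; linarith only [sq_nonneg Cg]
      unfold kap
      rcases le_total (1 / D x) (H ^ 2 / D x ^ 2) with hle | hle
      · rw [min_eq_left hle]; exact g1
      · rw [min_eq_right hle]; exact g4
    have h2 : av (fun y => (w y) ^ 2) x ≤ 3 * K ^ 2 * L ^ 2 * min 1 (H ^ 2 / D x) := by
      refine av_le fun e => ?_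
      have hDx := hDp x
      have hDy := hDp (x + dir e)
      have hsh := hDsh x e
      have g0 := hw0 (x + dir e)
      have g1 : w (x + dir e) ≤ K * L * min 1 (H / Real.sqrt (D (x + dir e))) := hwm _
      have g2 : (w (x + dir e)) ^ 2 ≤ K ^ 2 * L ^ 2 := by
        have : w (x + dir e) ≤ K * L := g1.trans (by
          calc _ ≤ K * L * 1 := mul_le_mul_of_nonneg_left (min_le_left _ _) (by positivity)
            _ = K * L := mul_one _)
        calc (w (x + dir e)) ^ 2 ≤ (K * L) ^ 2 := pow_le_pow_left₀ g0 this 2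
          _ = K ^ 2 * L ^ 2 := by ring
      have g3 : (w (x + dir e)) ^ 2 ≤ K ^ 2 * L ^ 2 * (3 * (H ^ 2 / D x)) := by
        have : w (x + dir e) ≤ K * L * (H / Real.sqrt (D (x + dir e))) := g1.trans
          (mul_le_mul_of_nonneg_left (min_le_right _ _) (by positivity))
        calc (w (x + dir e)) ^ 2 ≤ (K * L * (H / Real.sqrt (D (x + dir e)))) ^ 2 :=
              pow_le_pow_left₀ g0 this 2
          _ = K ^ 2 * L ^ 2 * (H ^ 2 / D (x + dir e)) := by
              rw [mul_pow, mul_pow, div_pow, Real.sq_sqrt hDy.le]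
          _ ≤ K ^ 2 * L ^ 2 * (3 * (H ^ 2 / D x)) := by
              refine mul_le_mul_of_nonneg_left ?_ (by positivity)
              rw [← mul_div_assoc, div_le_div_iff₀ hDy hDx]
              calc H ^ 2 * D x ≤ H ^ 2 * (3 * D (x + dir e)) :=
                    mul_le_mul_of_nonneg_left hsh (sq_nonneg _)
                _ = 3 * H ^ 2 * D (x + dir e) := by ring
      rcases le_total 1 (H ^ 2 / D x) with hle | hle
      · rw [min_eq_left hle]
        have : 0 ≤ K ^ 2 * L ^ 2 := by positivity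
        linarith
      · rw [min_eq_right hle]
        calc _ ≤ _ := g3
          _ = 3 * K ^ 2 * L ^ 2 * (H ^ 2 / D x) := by ring
    rw [hav]
    have h3 : w x - (w x - ρ x) = ρ x := by ring
    rw [h3, hρ]
    refine mul_le_mul_of_nonneg_left ?_ hC4.le
    refine add_le_add h1 ?_
    calc θ ^ 2 * av (fun y => (w y) ^ 2) x ≤
          θ ^ 2 * (3 * K ^ 2 * L ^ 2 * min 1 (H ^ 2 / D x)) :=
          mul_le_mul_of_nonneg_left h2 (by positivity)
      _ = 3 * θ ^ 2 * K ^ 2 * L ^ 2 * min 1 (H ^ 2 / D x) := by ring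
  · have h0 : (0 : V) ∈ BR R := mem_BR.2 (by rw [nsq_zero]; exact Nat.zero_le _)
    rw [hsplit 0]
    have h1 : C4 * C1 * (∑ y ∈ BR R, G 0 y * kap H (D y)) ≤
        C4 * C1 * (Cs * L * H ^ 2 / (R : ℝ) ^ 2) :=
      mul_le_mul_of_nonneg_left hs3 (by positivity)
    have h2 : 3 * C4 * θ ^ 2 * K ^ 2 * L ^ 2 * (∑ y ∈ BR R, G 0 y * min 1 (H ^ 2 / D y)) ≤
        3 * C4 * θ ^ 2 * K ^ 2 * L ^ 2 * (Cs * L * H ^ 2) :=
      mul_le_mul_of_nonneg_left (hs2 0 h0) (by positivity)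
    have h3 : 3 * C4 * θ ^ 2 * K ^ 2 * L ^ 2 * (Cs * L * H ^ 2) ≤
        B * K * (L ^ 2 * (H ^ 2 / (R : ℝ) ^ 2)) := by
      have q0 : 0 ≤ θ * L * R := by positivity
      have q1 : C * (θ * L * R) ≤ 1 := by
        have : C * (θ * L * R) = C * θ * L * R := by ring
        rw [this]; exact hsmall
      have q2 : θ * L * R ≤ 1 := le_trans (le_mul_of_one_le_left q0 hC_1) q1
      have q3 : (θ * L * R) ^ 2 ≤ 1 := pow_le_one₀ q0 q2
      have e3 : 3 * C4 * θ ^ 2 * K ^ 2 * L ^ 2 * (Cs * L * H ^ 2) =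
          B * K * ((θ * L * R) ^ 2 * (L * (H ^ 2 / (R : ℝ) ^ 2))) := by
        rw [hB]; field_simp
      rw [e3]
      refine mul_le_mul_of_nonneg_left ?_ (by positivity)
      have e4 : 0 ≤ H ^ 2 / (R : ℝ) ^ 2 := by positivity
      calc (θ * L * R) ^ 2 * (L * (H ^ 2 / (R : ℝ) ^ 2)) ≤ 1 * (L * (H ^ 2 / (R : ℝ) ^ 2)) :=
            mul_le_mul_of_nonneg_right q3 (by positivity)
        _ = L * (H ^ 2 / (R : ℝ) ^ 2) := one_mul _
        _ ≤ L ^ 2 * (H ^ 2 / (R : ℝ) ^ 2) := by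
            refine mul_le_mul_of_nonneg_right ?_ e4
            exact le_self_pow₀ hL two_ne_zero
    have h4 : C4 * C1 * (Cs * L * H ^ 2 / (R : ℝ) ^ 2) ≤
        C4 * C1 * Cs * (L ^ 2 * (H ^ 2 / (R : ℝ) ^ 2)) := by
      have e5 : C4 * C1 * (Cs * L * H ^ 2 / (R : ℝ) ^ 2) =
          C4 * C1 * Cs * (L * (H ^ 2 / (R : ℝ) ^ 2)) := by ring
      rw [e5]
      refine mul_le_mul_of_nonneg_left ?_ (by positivity)
      refine mul_le_mul_of_nonneg_right ?_ (by positivity)
      exact le_self_pow₀ hL two_ne_zero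
    calc _ ≤ C4 * C1 * (Cs * L * H ^ 2 / (R : ℝ) ^ 2) +
          3 * C4 * θ ^ 2 * K ^ 2 * L ^ 2 * (Cs * L * H ^ 2) := add_le_add h1 h2
      _ ≤ C4 * C1 * Cs * (L ^ 2 * (H ^ 2 / (R : ℝ) ^ 2)) +
          B * K * (L ^ 2 * (H ^ 2 / (R : ℝ) ^ 2)) := add_le_add h4 h3
      _ = (C4 * C1 * Cs + B * K) * (L ^ 2 * (H ^ 2 / (R : ℝ) ^ 2)) := by ring
      _ ≤ C * (L ^ 2 * (H ^ 2 / (R : ℝ) ^ 2)) :=
          mul_le_mul_of_nonneg_right hC_s (by positivity)
      _ = C * L ^ 2 * H ^ 2 / (R : ℝ) ^ 2 := by ring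

end Pool.Agent.K1H8.BI5
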